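import Pool.Agent.Lib.MP_011f3a_lc.LM.A.Defs

/-! # Names of arbitrary objects (module A-DV)

`DV y`: every condition has an extension which decides the value `y(G)`. `DV.bpr`: extend first to decide `y(G) = a`, then to decide `Ψ a`.
`DV.fa`: `FA_local` (A/Local.lean). `DV.of_bpr`: `FA.exists_of_BPr`. -/

namespace Pool.Agent.Lib.MP_011f3a_lc.LM

variable {P : Type} [Preorder P] {w : P} {Y Z : Type*}

/-- every condition has an extension which decides the value of `y` -/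
def DV (y : Flt P → Y) : Prop := ∀ w, ∃ v ≤ w, ∃ a, FA v fun G => y G = a

theorem DV.const (a : Y) : DV fun _ : Flt P => a :=
  fun w => ⟨w, le_rfl, a, FA.of_forall fun _ _ => rfl⟩

theorem DV.comp {y : Flt P → Y} (h : DV y) (f : Y → Z) : DV fun G => f (y G) := by
  intro w
  obtain ⟨v, hv, a, h1⟩ := h w
  exact ⟨v, hv, f a, h1.imp fun G _ h2 => congrArg f h2⟩

theorem DV.pair {y : Flt P → Y} {z : Flt P → Z} (h : DV y) (h' : DV z) : DV fun G => (y G, z G) := by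
  intro w
  obtain ⟨v, hv, a, h1⟩ := h w
  obtain ⟨v', hv', b, h2⟩ := h' v
  exact ⟨v', hv'.trans hv, (a, b), (h1.mono hv').imp₂ h2 fun G _ h3 h4 => Prod.ext h3 h4⟩

theorem DV.bpr {y : Flt P → Y} {Ψ : Y → Flt P → Prop} (hy : DV y) (h : ∀ a, BPr (Ψ a)) :
    BPr fun G => Ψ (y G) G := by
  intro w
  obtain ⟨v, hv, a, h1⟩ := hy w
  obtain ⟨v', hv', h2 | h2⟩ := h a v
  · exact ⟨v', hv'.trans hv, Or.inl ((h1.mono hv').imp₂ h2 fun G _ h3 h4 => by show Ψ (y G) G; rw [h3]; exact h4)⟩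
  · exact ⟨v', hv'.trans hv, Or.inr ((h1.mono hv').imp₂ h2 fun G _ h3 h4 => by show ¬ Ψ (y G) G; rw [h3]; exact h4)⟩

theorem DV.bpr' {y : Flt P → Y} (hy : DV y) (Ψ : Y → Prop) : BPr fun G => Ψ (y G) :=
  hy.bpr (Ψ := fun a _ => Ψ a) fun a => BPr.const (Ψ a)

theorem DV.fa {y : Flt P → Y} {Ψ : Y → Flt P → Prop} (hy : DV y)
    (h : ∀ v ≤ w, ∀ a, (FA v fun G => y G = a) → FA v (Ψ a)) : FA w fun G => Ψ (y G) G := by
  refine FA_local fun w' hw' => ?_
  obtain ⟨v, hv, a, h1⟩ := hy w'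
  exact ⟨v, hv, h1.imp₂ (h v (hv.trans hw') a h1) fun G _ h2 h3 => by rw [h2]; exact h3⟩

theorem DV.of_bpr [Countable Y] [Nonempty Y] {y : Flt P → Y} (h : ∀ a, BPr fun G => y G = a) : DV y := by
  intro w
  have h1 : FA w fun G => ∃ a, y G = a := FA.of_forall fun G _ => ⟨y G, rfl⟩
  obtain ⟨v, hv, a, h2⟩ := h1.exists_of_BPr h
  exact ⟨v, hv, a, h2⟩

theorem DV.decide {y : Flt P → Y} (h : DV y) (w : P) : ∃ v ≤ w, ∃ a, FA v fun G => y G = a := h w

/-- finitely many values at once -/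
theorem DV.list {y : ℕ → Flt P → Y} (h : ∀ i, DV (y i)) (l : ℕ) :
    DV fun G => List.ofFn fun i : Fin l => y i G := by
  induction l with
  | zero => exact (DV.const ([] : List Y)).comp id
  | succ l ih =>
    have h1 := (ih.pair (h l)).comp fun z => z.1 ++ [z.2]
    intro w
    obtain ⟨v, hv, a, h2⟩ := h1 w
    refine ⟨v, hv, a, h2.imp fun G _ h3 => ?_⟩
    rw [← h3]
    show (List.ofFn fun i : Fin (l + 1) => y i G) = _
    rw [List.ofFn_succ_last]
    simp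

end Pool.Agent.Lib.MP_011f3a_lc.LM

/-! # Antichains with data (module A-ANTI)

`exists_anti`: apply `exists_antichain` to the set of the first components of the elements of `X` which are `≤ w`, and choose one element of `X` for each element
of the antichain. `anti_dv`: `y G` is the second component of the element of `A` whose first component belongs to `G`. -/

namespace Pool.Agent.Lib.MP_011f3a_lc.LM

variable {P : Type} [Preorder P] {w : P} {Y : Type*}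

/-- `A` is a maximal antichain below `w` with data -/
structure Anti (w : P) (A : Set (P × Y)) : Prop where
  le : ∀ x ∈ A, x.1 ≤ w
  inc : ∀ x ∈ A, ∀ y ∈ A, x ≠ y → Inc x.1 y.1
  pre : ∀ q ≤ w, ∃ r ≤ q, ∃ x ∈ A, r ≤ x.1

theorem exists_anti (X : Set (P × Y)) (hX : ∀ q ≤ w, ∃ x ∈ X, x.1 ≤ q) : ∃ A ⊆ X, Anti w A := by
  obtain ⟨B, hBX, hBw, hinc, hpre⟩ := exists_antichain (w := w) {p | ∃ x ∈ X, x.1 = p} (by
    intro q hq
    obtain ⟨x, hx, h1⟩ := hX q hq
    exact ⟨x.1, h1, x, hx, rfl⟩)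
  have h1 : ∀ p : B, ∃ x ∈ X, x.1 = p.1 := fun p => hBX p.2
  choose f hf hf1 using h1
  refine ⟨Set.range f, ?_, ⟨?_, ?_, ?_⟩⟩
  · rintro _ ⟨p, rfl⟩
    exact hf p
  · rintro _ ⟨p, rfl⟩
    rw [hf1]
    exact hBw _ p.2
  · rintro _ ⟨p, rfl⟩ _ ⟨q, rfl⟩ hne
    rw [hf1, hf1]
    refine hinc _ p.2 _ q.2 fun h => hne ?_
    rw [Subtype.ext h]
  · intro q hq
    obtain ⟨r, hr, a, ha, hra⟩ := hpre q hq
    exact ⟨r, hr, f ⟨a, ha⟩, ⟨_, rfl⟩, by rw [hf1]; exact hra⟩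

theorem Anti.unique {A : Set (P × Y)} (hA : Anti w A) {G : Flt P} {x y : P × Y} (hx : x ∈ A) (hy : y ∈ A)
    (h : x.1 ∈ G.car) (h' : y.1 ∈ G.car) : x = y := by
  by_contra hne
  exact Flt.compat h h' (hA.inc x hx y hy hne)

open Classical in
theorem anti_dv {A : Set (P × Y)} (hA : Anti w A) :
    ∃ y : Flt P → Y, DV y ∧ ∀ x ∈ A, ∀ G : Flt P, x.1 ∈ G.car → y G = x.2 := by
  obtain ⟨r0, -, x0, hx0, -⟩ := hA.pre w le_rfl
  have h1 : ∀ G : Flt P, ∃ a : Y, (∀ x ∈ A, x.1 ∈ G.car → a = x.2) ∧ ((¬ ∃ x ∈ A, x.1 ∈ G.car) → a = x0.2) := by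
    intro G
    by_cases h : ∃ x ∈ A, x.1 ∈ G.car
    · obtain ⟨x, hx, hxG⟩ := h
      exact ⟨x.2, fun y hy hyG => by rw [hA.unique hx hy hxG hyG], fun h2 => (h2 ⟨x, hx, hxG⟩).elim⟩
    · exact ⟨x0.2, fun y hy hyG => (h ⟨y, hy, hyG⟩).elim, fun _ => rfl⟩
  choose y hy hy0 using h1
  refine ⟨y, fun w' => ?_, fun x hx G hG => hy G x hx hG⟩
  by_cases h : ∃ v ≤ w', ∃ x ∈ A, v ≤ x.1
  · obtain ⟨v, hv, x, hx, hvx⟩ := h
    exact ⟨v, hv, x.2, FA.of_forall fun G hG => hy G x hx (G.up _ hG _ hvx)⟩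
  · refine ⟨w', le_rfl, x0.2, FA.of_forall fun G hG => hy0 G ?_⟩
    rintro ⟨x, hx, hxG⟩
    obtain ⟨r, -, h2, h3⟩ := G.dir _ hG _ hxG
    exact h ⟨r, h2, x, hx, h3⟩

/-- a countable part which is predense below a condition which captures the antichain -/
theorem Anti.cap {A : Set (P × Y)} (hA : Anti w A) {w' : P} (hw : w' ≤ w) (hc : Cap w' {c | ∃ x ∈ A, c ≤ x.1}) :
    ∃ C ⊆ A, C.Countable ∧ ∀ q ≤ w', ∃ r ≤ q, ∃ x ∈ C, r ≤ x.1 := by
  obtain ⟨C, hC, hCD, hpre⟩ := hc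
  have h1 : ∀ c : C, ∃ x ∈ A, c.1 ≤ x.1 := fun c => hCD c.2
  choose f hf hf1 using h1
  haveI := hC.to_subtype
  refine ⟨Set.range f, ?_, Set.countable_range f, fun q hq => ?_⟩
  · rintro _ ⟨p, rfl⟩
    exact hf p
  · obtain ⟨r, hr, c, hc, hrc⟩ := hpre q hq
    exact ⟨r, hr, f ⟨c, hc⟩, ⟨_, rfl⟩, hrc.trans (hf1 ⟨c, hc⟩)⟩

end Pool.Agent.Lib.MP_011f3a_lc.LM

/-! # Generic recursion (module A-GR)

`Ok c h`: the condition `c` accepts the finite sequence `h` of objects. `GSys Ok w A e`: the set `A l` of pairs `(c, h)` with `Ok c h` and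
`h.length = l` is predense below `w`, and for a filter `G` which contains `c`, `(c, h) ∈ A l`, the values of the names `e i` (`i < l`) are the entries of `h`.
`exists_gsys`: define by recursion sets `A l` of pairs such that the first components are a maximal antichain below `w`, and every element of `A (l + 1)` is
`(c'', h ++ [e])` with `c'' ≤ c`, `(c, h) ∈ A l` (for each `(c, h) ∈ A l` use `exists_antichain` with the set of the `c'' ≤ c` such that `Ok c'' (h ++ [e])` for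
some `e`, and choose `e`); two different elements of `A l` are incompatible; `e i G` is the entry number `i` of `h` for the element `(c, h)` of `A (i + 1)`
with `c ∈ G` (arbitrary if there is none). `DV (e i)`: a condition which is not below an element of `A (i + 1)` and has no such extension is incompatible with
`w`; then no filter containing it contains an element `≤ w`. -/

namespace Pool.Agent.Lib.MP_011f3a_lc.LM

variable {P : Type} [Preorder P] {w : P} {E : Type}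

/-- the result of a generic recursion -/
structure GSys (Ok : P → List E → Prop) (w : P) (A : ℕ → Set (P × List E)) (e : ℕ → Flt P → E) : Prop where
  ok : ∀ l, ∀ x ∈ A l, Ok x.1 x.2
  len : ∀ l, ∀ x ∈ A l, x.2.length = l
  le : ∀ l, ∀ x ∈ A l, x.1 ≤ w
  dns : ∀ l, ∀ q ≤ w, ∃ r ≤ q, ∃ x ∈ A l, r ≤ x.1
  val : ∀ l, ∀ x ∈ A l, ∀ G : Flt P, x.1 ∈ G.car → x.2 = List.ofFn fun i : Fin l => e i G
  dv : ∀ i, DV (e i)

private theorem GR_exists (Ok : P → List E → Prop) (w : P) (hm : ∀ c c' h, Ok c h → c' ≤ c → Ok c' h)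
    (hs : ∀ c h, c ≤ w → Ok c h → ∃ c' ≤ c, ∃ e, Ok c' (h ++ [e])) (x : P × List E) :
    ∃ B : Set (P × E), (∀ z ∈ B, Ok z.1 (x.2 ++ [z.2])) ∧ (x.1 ≤ w → Ok x.1 x.2 → Anti x.1 B) := by
  by_cases hx : x.1 ≤ w ∧ Ok x.1 x.2
  · obtain ⟨A, hA, hA'⟩ := exists_anti (w := x.1) {z : P × E | Ok z.1 (x.2 ++ [z.2])} (fun q hq => by
      obtain ⟨c', hc', e, he⟩ := hs q x.2 (hq.trans hx.1) (hm _ _ _ hx.2 hq)
      exact ⟨(c', e), he, hc'⟩)
    exact ⟨A, fun z hz => hA hz, fun _ _ => hA'⟩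
  · exact ⟨∅, fun z hz => absurd hz (Set.notMem_empty z), fun h h' => absurd ⟨h, h'⟩ hx⟩

theorem exists_gsys (Ok : P → List E → Prop) (w : P) (hm : ∀ c c' h, Ok c h → c' ≤ c → Ok c' h) (h0 : Ok w [])
    (hs : ∀ c h, c ≤ w → Ok c h → ∃ c' ≤ c, ∃ e, Ok c' (h ++ [e])) :
    ∃ A e, GSys Ok w A e := by
  classical
  choose B hB hB' using GR_exists Ok w hm hs
  obtain ⟨_, _, e₀, _⟩ := hs w [] le_rfl h0
  let A : ℕ → Set (P × List E) := fun l => Nat.rec {(w, [])}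
    (fun _ S => {y | ∃ x ∈ S, ∃ z ∈ B x, y = (z.1, x.2 ++ [z.2])}) l
  have A0 : A 0 = {(w, [])} := rfl
  have AS : ∀ l, A (l + 1) = {y | ∃ x ∈ A l, ∃ z ∈ B x, y = (z.1, x.2 ++ [z.2])} := fun l => rfl
  have hok : ∀ l, ∀ x ∈ A l, Ok x.1 x.2 ∧ x.2.length = l ∧ x.1 ≤ w := by
    intro l
    induction l with
    | zero =>
      intro x hx
      rw [A0, Set.mem_singleton_iff] at hx
      subst hx
      exact ⟨h0, rfl, le_rfl⟩
    | succ l ih =>
      intro y hy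
      rw [AS] at hy
      obtain ⟨x, hx, z, hz, rfl⟩ := hy
      obtain ⟨h1, h2, h3⟩ := ih x hx
      refine ⟨hB x z hz, ?_, ((hB' x h3 h1).le z hz).trans h3⟩
      show (x.2 ++ [z.2]).length = l + 1
      rw [List.length_append, h2]
      rfl
  have hun : ∀ l, ∀ x ∈ A l, ∀ y ∈ A l, ∀ G : Flt P, x.1 ∈ G.car → y.1 ∈ G.car → x = y := by
    intro l
    induction l with
    | zero =>
      intro x hx y hy G _ _
      rw [A0, Set.mem_singleton_iff] at hx hy
      rw [hx, hy]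
    | succ l ih =>
      intro x hx y hy G hxG hyG
      rw [AS] at hx hy
      obtain ⟨x', hx', z, hz, rfl⟩ := hx
      obtain ⟨y', hy', u, hu, rfl⟩ := hy
      obtain ⟨h1, h2, h3⟩ := hok l x' hx'
      obtain ⟨k1, k2, k3⟩ := hok l y' hy'
      have e1 : x' = y' := ih x' hx' y' hy' G (G.up _ hxG _ ((hB' x' h3 h1).le z hz))
        (G.up _ hyG _ ((hB' y' k3 k1).le u hu))
      subst e1
      have e2 : z = u := (hB' x' h3 h1).unique hz hu hxG hyG
      rw [e2]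
  have hdn : ∀ l, ∀ q ≤ w, ∃ r ≤ q, ∃ x ∈ A l, r ≤ x.1 := by
    intro l
    induction l with
    | zero =>
      intro q hq
      exact ⟨q, le_rfl, (w, []), by rw [A0]; exact Set.mem_singleton _, hq⟩
    | succ l ih =>
      intro q hq
      obtain ⟨r, hr, x, hx, hrx⟩ := ih q hq
      obtain ⟨h1, h2, h3⟩ := hok l x hx
      obtain ⟨s, hs', z, hz, hsz⟩ := (hB' x h3 h1).pre r hrx
      exact ⟨s, hs'.trans hr, (z.1, x.2 ++ [z.2]), by rw [AS]; exact ⟨x, hx, z, hz, rfl⟩, hsz⟩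
  have hex : ∀ (i : ℕ) (G : Flt P), ∃ e : E, (∀ x ∈ A (i + 1), x.1 ∈ G.car → x.2.getLast? = some e) ∧
      ((¬ ∃ x ∈ A (i + 1), x.1 ∈ G.car) → e = e₀) := by
    intro i G
    by_cases h : ∃ x ∈ A (i + 1), x.1 ∈ G.car
    · obtain ⟨x, hx, hxG⟩ := h
      have hx' := hx
      rw [AS] at hx'
      obtain ⟨x', hx', z, hz, rfl⟩ := hx'
      refine ⟨z.2, fun y hy hyG => ?_, fun h => absurd ⟨_, hx, hxG⟩ h⟩
      rw [hun (i + 1) y hy _ hx G hyG hxG]
      simp
    · exact ⟨e₀, fun x hx hxG => absurd ⟨x, hx, hxG⟩ h, fun _ => rfl⟩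
  choose e he he' using hex
  refine ⟨A, e, fun l x hx => (hok l x hx).1, fun l x hx => (hok l x hx).2.1,
    fun l x hx => (hok l x hx).2.2, hdn, ?_, ?_⟩
  · intro l
    induction l with
    | zero =>
      intro x hx G _
      rw [A0, Set.mem_singleton_iff] at hx
      subst hx
      simp
    | succ l ih =>
      intro y hy G hyG
      have hy' := hy
      rw [AS] at hy'
      obtain ⟨x, hx, z, hz, rfl⟩ := hy'
      obtain ⟨h1, h2, h3⟩ := hok l x hx
      have hxG : x.1 ∈ G.car := G.up _ hyG _ ((hB' x h3 h1).le z hz)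
      have e1 := ih x hx G hxG
      have e2 := he l G _ hy hyG
      have e3 : z.2 = e l G := by simpa using e2
      show x.2 ++ [z.2] = _
      rw [List.ofFn_succ', List.concat_eq_append, e1, e3]
      rfl
  · intro i v
    by_cases h : ∃ v' ≤ v, ∃ x ∈ A (i + 1), v' ≤ x.1
    · obtain ⟨v', hv', x, hx, hvx⟩ := h
      have hx' := hx
      rw [AS] at hx'
      obtain ⟨x', hx', z, hz, rfl⟩ := hx'
      refine ⟨v', hv', z.2, FA.of_forall fun G hG => ?_⟩
      have e2 := he i G _ hx (G.up _ hG _ hvx)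
      have e3 : z.2 = e i G := by simpa using e2
      exact e3.symm
    · refine ⟨v, le_rfl, e₀, FA.of_forall fun G hG => he' i G ?_⟩
      rintro ⟨x, hx, hxG⟩
      obtain ⟨r, _, hr1, hr2⟩ := G.dir _ hG _ hxG
      exact h ⟨r, hr1, x, hx, hr2⟩

variable {Ok : P → List E → Prop} {A : ℕ → Set (P × List E)} {e : ℕ → Flt P → E}

/-- what is forced by the accepting conditions holds for the generic sequence (`FA_local`) -/
theorem GSys.fa (hg : GSys Ok w A e) {Ψ : List E → Flt P → Prop} (h : ∀ c l, Ok c l → FA c (Ψ l)) :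
    FA w fun G => ∀ l : ℕ, Ψ (List.ofFn fun i : Fin l => e i G) G := by
  refine FA.all fun l => FA_local fun w' hw' => ?_
  obtain ⟨r, hr, x, hx, hrx⟩ := hg.dns l w' hw'
  refine ⟨r, hr, ((h x.1 x.2 (hg.ok l x hx)).mono hrx).imp fun G hG hΨ => ?_⟩
  rw [← hg.val l x hx G (G.up _ hG _ hrx)]
  exact hΨ

/-- the same for properties of conditions in the filter -/
theorem GSys.fa_mem (hg : GSys Ok w A e) :
    FA w fun G => ∀ l : ℕ, ∃ c ∈ G.car, Ok c (List.ofFn fun i : Fin l => e i G) := by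
  refine FA.all fun l => FA_local fun w' hw' => ?_
  obtain ⟨r, hr, x, hx, hrx⟩ := hg.dns l w' hw'
  refine ⟨r, hr, FA.of_forall fun G hG => ⟨x.1, G.up _ hG _ hrx, ?_⟩⟩
  rw [← hg.val l x hx G (G.up _ hG _ hrx)]
  exact hg.ok l x hx

/-- countable subsets after capturing -/
theorem GSys.cap (hg : GSys Ok w A e) {w' : P} (hw : w' ≤ w) (hc : ∀ l, Cap w' {c | ∃ x ∈ A l, c ≤ x.1}) :
    ∃ C : ℕ → Set (P × List E), (∀ l, (C l).Countable) ∧ (∀ l, C l ⊆ A l) ∧
      ∀ l, ∀ q ≤ w', ∃ r ≤ q, ∃ x ∈ C l, r ≤ x.1 := by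
  classical
  have key : ∀ l, ∃ C : Set (P × List E), C.Countable ∧ C ⊆ A l ∧
      ∀ q ≤ w', ∃ r ≤ q, ∃ x ∈ C, r ≤ x.1 := by
    intro l
    obtain ⟨D, hD, hDA, hDp⟩ := hc l
    choose f hf hf' using fun c : D => hDA c.2
    have := hD.to_subtype
    refine ⟨Set.range f, Set.countable_range f, ?_, fun q hq => ?_⟩
    · rintro _ ⟨c, rfl⟩
      exact hf c
    · obtain ⟨r, hr, c, hcD, hrc⟩ := hDp q hq
      exact ⟨r, hr, f ⟨c, hcD⟩, ⟨_, rfl⟩, hrc.trans (hf' ⟨c, hcD⟩)⟩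
  choose C h1 h2 h3 using key
  exact ⟨C, h1, h2, h3⟩

end Pool.Agent.Lib.MP_011f3a_lc.LM
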