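import Mathlib

/-!
# Forcing with a preorder (module A-DEFS)

`P` is a preordered set of conditions; `p ≤ q` means that `p` is stronger. A name of a subset of `ι` is a function
`T : ι → Set P`; its value for a filter `G` is `ev T G = {i | G meets T i}`. `FA w Ψ` says that there are countably many
dense sets such that `Ψ G` holds for all filters `G ∋ w` which meet them: `w` forces `Ψ(G)`.
-/

namespace Pool.Agent.Lib.MP_011f3a_lc.LM

variable {P : Type} [Preorder P]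

/-- `w` forces that `A` meets the generic filter -/
def Frc (A : Set P) (w : P) : Prop := ∀ w' ≤ w, ∃ v ≤ w', ∃ c ∈ A, v ≤ c

/-- `D` is dense -/
def Dns (D : Set P) : Prop := ∀ p, ∃ q ≤ p, q ∈ D

/-- `D` is open (closed downwards) -/
def Opn (D : Set P) : Prop := ∀ p ∈ D, ∀ q ≤ p, q ∈ D

/-- `D` is dense below `p` -/
def DnsB (D : Set P) (p : P) : Prop := ∀ q ≤ p, ∃ r ≤ q, r ∈ D

/-- `p` and `q` are incompatible -/
def Inc (p q : P) : Prop := ∀ r ≤ p, ¬ r ≤ q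

/-- `p` captures `D`: some countable subset of `D` is predense below `p` -/
def Cap (p : P) (D : Set P) : Prop := ∃ C : Set P, C.Countable ∧ C ⊆ D ∧ ∀ q ≤ p, ∃ r ≤ q, ∃ c ∈ C, r ≤ c

variable (P) in
/-- filters -/
structure Flt where
  /-- the elements -/
  car : Set P
  ne : car.Nonempty
  up : ∀ p ∈ car, ∀ q, p ≤ q → q ∈ car
  dir : ∀ p ∈ car, ∀ q ∈ car, ∃ r ∈ car, r ≤ p ∧ r ≤ q

/-- the filter meets `A` -/
def mt (A : Set P) (G : Flt P) : Prop := ∃ c ∈ A, c ∈ G.car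

/-- the value of a name -/
def ev {ι : Type*} (T : ι → Set P) (G : Flt P) : Set ι := {i | mt (T i) G}

/-- the name of everything -/
def full (P : Type) (ι : Type*) : ι → Set P := fun _ => Set.univ

/-- `w` forces `Ψ(G)`: there are countably many dense sets such that `Ψ G` holds for every filter which
contains `w` and meets them -/
def FA (w : P) (Ψ : Flt P → Prop) : Prop :=
  ∃ D : ℕ → Set P, (∀ n, Dns (D n)) ∧ ∀ G : Flt P, w ∈ G.car → (∀ n, mt (D n) G) → Ψ G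

/-- the canonical name of a set which depends on the generic filter -/
def mkn {ι : Type*} (T : Flt P → Set ι) : ι → Set P := fun s => {c | FA c fun G => s ∈ T G}

end Pool.Agent.Lib.MP_011f3a_lc.LM

/-! # Basic rules for `FA` (module A-BASIC)

`FA.all`: take the countable union of the families (`ℕ × ℕ ≃ ℕ` after an enumeration of `ι`; for empty `ι` trivial).
`FA_mt_dnsB`: the set of all `q` with `q ∈ D` or `Inc q w` is dense (if `q` is compatible with `w`, go below both and use the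
hypothesis); an element of a filter which contains `w` is not incompatible with `w`. `FA_mt_frc`: the same with the set
of the `q` which are below an element of `A` (filters are closed upwards). -/

namespace Pool.Agent.Lib.MP_011f3a_lc.LM

variable {P : Type} [Preorder P] {w w' : P} {Ψ Ψ' : Flt P → Prop}

theorem FA.of_forall (h : ∀ G : Flt P, w ∈ G.car → Ψ G) : FA w Ψ :=
  ⟨fun _ => Set.univ, fun _ p => ⟨p, le_rfl, trivial⟩, fun G hG _ => h G hG⟩

theorem FA.mono (h : FA w Ψ) (hw : w' ≤ w) : FA w' Ψ := by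
  obtain ⟨D, hD, h⟩ := h
  exact ⟨D, hD, fun G hG hm => h G (G.up _ hG _ hw) hm⟩

theorem FA.imp (h : FA w Ψ) (hi : ∀ G : Flt P, w ∈ G.car → Ψ G → Ψ' G) : FA w Ψ' := by
  obtain ⟨D, hD, h⟩ := h
  exact ⟨D, hD, fun G hG hm => hi G hG (h G hG hm)⟩

theorem FA.all {ι : Type*} [Countable ι] {Ψ : ι → Flt P → Prop} (h : ∀ i, FA w (Ψ i)) :
    FA w fun G => ∀ i, Ψ i G := by
  rcases isEmpty_or_nonempty ι with hι | hι
  · exact FA.of_forall fun G _ i => hι.elim i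
  · choose D hD h using h
    obtain ⟨e, he⟩ := exists_surjective_nat ι
    refine ⟨fun n => D (e (Nat.unpair n).1) (Nat.unpair n).2, fun n => hD _ _, fun G hG hm i => ?_⟩
    obtain ⟨j, rfl⟩ := he i
    refine h (e j) G hG fun n => ?_
    have := hm (Nat.pair j n)
    simpa using this

theorem FA.and (h : FA w Ψ) (h' : FA w Ψ') : FA w fun G => Ψ G ∧ Ψ' G := by
  have h1 : FA w fun G => ∀ b : Bool, cond b (Ψ G) (Ψ' G) := FA.all fun b => by cases b <;> assumption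
  exact h1.imp fun G _ h2 => ⟨h2 true, h2 false⟩

/-- rule for two assumptions -/
theorem FA.imp₂ {Φ : Flt P → Prop} (h : FA w Ψ) (h' : FA w Ψ')
    (hi : ∀ G : Flt P, w ∈ G.car → Ψ G → Ψ' G → Φ G) : FA w Φ :=
  (h.and h').imp fun G hG h1 => hi G hG h1.1 h1.2

/-- the dense sets of `FA c Ψ` are good for every filter which contains `c` -/
theorem FA.cond {c : P} (h : FA c Ψ) (w : P) : FA w fun G => c ∈ G.car → Ψ G := by
  obtain ⟨D, hD, h⟩ := h
  exact ⟨D, hD, fun G _ hm hc => h G hc hm⟩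

theorem FA_mt_dns {D : Set P} (h : Dns D) : FA w (mt D) :=
  ⟨fun _ => D, fun _ => h, fun _ _ hm => hm 0⟩

private theorem basic_frc {A : Set P} (h : ∀ w' ≤ w, ∃ v ≤ w', ∃ c ∈ A, v ≤ c) : FA w (mt A) := by
  refine ⟨fun _ => {q | (∃ c ∈ A, q ≤ c) ∨ Inc q w}, fun _ p => ?_, fun G hG hm => ?_⟩
  · by_cases hp : Inc p w
    · exact ⟨p, le_rfl, Or.inr hp⟩
    · unfold Inc at hp
      push_neg at hp
      obtain ⟨r, hr, hrw⟩ := hp
      obtain ⟨v, hv, c, hc, hvc⟩ := h r hrw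
      exact ⟨v, hv.trans hr, Or.inl ⟨c, hc, hvc⟩⟩
  · obtain ⟨q, hq, hqG⟩ := hm 0
    rcases hq with ⟨c, hc, hqc⟩ | hq
    · exact ⟨c, hc, G.up _ hqG _ hqc⟩
    · obtain ⟨r, -, h1, h2⟩ := G.dir _ hqG _ hG
      exact (hq r h1 h2).elim

theorem FA_mt_dnsB {D : Set P} (h : DnsB D w) : FA w (mt D) :=
  basic_frc fun w' hw' => by
    obtain ⟨r, hr, hrD⟩ := h w' hw'
    exact ⟨r, hr, r, hrD, le_rfl⟩

theorem FA_mt_frc {A : Set P} (h : Frc A w) : FA w (mt A) := basic_frc h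

theorem Frc.mono {A : Set P} (h : Frc A w) (hw : w' ≤ w) : Frc A w' := fun v hv => h v (hv.trans hw)

theorem Frc.subset {A B : Set P} (h : Frc A w) (hAB : A ⊆ B) : Frc B w := by
  intro v hv
  obtain ⟨u, hu, c, hc, huc⟩ := h v hv
  exact ⟨u, hu, c, hAB hc, huc⟩

theorem frc_of_le {A : Set P} {a : P} (ha : a ∈ A) (hw : w ≤ a) : Frc A w :=
  fun v hv => ⟨v, le_rfl, a, ha, hv.trans hw⟩

theorem Cap.mono {D : Set P} (h : Cap w D) (hw : w' ≤ w) : Cap w' D := by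
  obtain ⟨C, hC, hCD, h⟩ := h
  exact ⟨C, hC, hCD, fun q hq => h q (hq.trans hw)⟩

theorem Cap.subset {D D' : Set P} (h : Cap w D) (hD : D ⊆ D') : Cap w D' := by
  obtain ⟨C, hC, hCD, h⟩ := h
  exact ⟨C, hC, hCD.trans hD, h⟩

end Pool.Agent.Lib.MP_011f3a_lc.LM

/-! # Existence of filters (module A-EXISTS)

Rasiowa-Sikorski: choose `w = p₀ ≥ p₁ ≥ …` with `p_{n+1} ∈ D n`; the filter generated by the sequence. -/

namespace Pool.Agent.Lib.MP_011f3a_lc.LM

variable {P : Type} [Preorder P] {w : P} {Ψ : Flt P → Prop}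

theorem exists_flt (w : P) (D : ℕ → Set P) (hD : ∀ n, Dns (D n)) :
    ∃ G : Flt P, w ∈ G.car ∧ ∀ n, mt (D n) G := by
  choose f hf hfD using hD
  let p : ℕ → P := fun n => Nat.rec w (fun n q => f n q) n
  have hs : ∀ n, p (n + 1) = f n (p n) := fun n => rfl
  have hmono : Antitone p := antitone_nat_of_succ_le fun n => by
    rw [hs]
    exact hf n (p n)
  refine ⟨⟨{q | ∃ n, p n ≤ q}, ⟨w, 0, le_rfl⟩, ?_, ?_⟩, ⟨0, le_rfl⟩, fun n => ?_⟩
  · rintro q ⟨n, hn⟩ q' h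
    exact ⟨n, hn.trans h⟩
  · rintro q ⟨n, hn⟩ q' ⟨n', hn'⟩
    exact ⟨p (max n n'), ⟨_, le_rfl⟩, (hmono (le_max_left _ _)).trans hn, (hmono (le_max_right _ _)).trans hn'⟩
  · refine ⟨p (n + 1), ?_, n + 1, le_rfl⟩
    rw [hs]
    exact hfD n (p n)

theorem FA.exists (h : FA w Ψ) : ∃ G : Flt P, w ∈ G.car ∧ Ψ G := by
  obtain ⟨D, hD, h⟩ := h
  obtain ⟨G, hG, hm⟩ := exists_flt w D hD
  exact ⟨G, hG, h G hG hm⟩

theorem FA.not_false : ¬ FA w fun _ => False := fun h => by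
  obtain ⟨G, -, h⟩ := h.exists
  exact h

/-- use `FA.and`, `FA.exists`: a filter which contains `w'` and meets `A` has an element below both -/
theorem frc_of_FA {A : Set P} (h : FA w (mt A)) : Frc A w := by
  intro w' hw'
  obtain ⟨G, hG, c, hc, hcG⟩ := (h.mono hw').exists
  obtain ⟨r, -, h1, h2⟩ := G.dir _ hG _ hcG
  exact ⟨r, h1, c, hc, h2⟩

theorem frc_iff {A : Set P} : Frc A w ↔ FA w (mt A) := ⟨FA_mt_frc, frc_of_FA⟩

/-- `a` and `b` are elements of a filter: they are compatible -/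
theorem Flt.compat {G : Flt P} {a b : P} (ha : a ∈ G.car) (hb : b ∈ G.car) : ¬ Inc a b := by
  intro h
  obtain ⟨r, -, h1, h2⟩ := G.dir _ ha _ hb
  exact h r h1 h2

theorem FA.exists_le {ι : Type*} {A : ι → Set P} (h : FA w fun G => ∃ i, mt (A i) G) :
    ∃ v ≤ w, ∃ i, ∃ c ∈ A i, v ≤ c := by
  obtain ⟨G, hG, i, c, hc, hcG⟩ := h.exists
  obtain ⟨r, -, h1, h2⟩ := G.dir _ hG _ hcG
  exact ⟨r, h1, i, c, hc, h2⟩

end Pool.Agent.Lib.MP_011f3a_lc.LM

/-! # `FA` is local (module A-LOCAL)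

Let `X` be the set of the `v ≤ w` with `FA v Ψ` (dense below `w`). By Zorn's lemma choose a maximal set `A ⊆ X` of
pairwise incompatible conditions, and for `v ∈ A` dense sets `D v n` as in the definition of `FA v Ψ`. The sets
`E = {q | (∃ v ∈ A, q ≤ v) ∨ Inc q w}` and `E n = {q | (∃ v ∈ A, q ≤ v ∧ ∃ d ∈ D v n, q ≤ d) ∨ Inc q w}` are dense. If `G ∋ w` meets
all of them then there is exactly one `v ∈ A` with `v ∈ G`, and `G` meets `D v n` for all `n`. -/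

namespace Pool.Agent.Lib.MP_011f3a_lc.LM

variable {P : Type} [Preorder P] {w : P} {Ψ : Flt P → Prop}

/-- a maximal antichain in a set which is dense below `w` -/
theorem exists_antichain (X : Set P) (hX : DnsB X w) :
    ∃ A : Set P, A ⊆ X ∧ (∀ a ∈ A, a ≤ w) ∧ (∀ a ∈ A, ∀ b ∈ A, a ≠ b → Inc a b) ∧
      ∀ q ≤ w, ∃ r ≤ q, ∃ a ∈ A, r ≤ a := by
  let S : Set (Set P) := {A | A ⊆ X ∧ (∀ a ∈ A, a ≤ w) ∧ ∀ a ∈ A, ∀ b ∈ A, a ≠ b → Inc a b}
  have hz : ∃ A, Maximal (· ∈ S) A := by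
    refine zorn_subset S fun c hc hch => ⟨⋃₀ c, ⟨?_, ?_, ?_⟩, fun s hs => Set.subset_sUnion_of_mem hs⟩
    · exact Set.sUnion_subset fun s hs => (hc hs).1
    · rintro a ⟨s, hs, ha⟩
      exact (hc hs).2.1 a ha
    · rintro a ⟨s, hs, ha⟩ b ⟨t, ht, hb⟩ hab
      rcases hch.total hs ht with h | h
      · exact (hc ht).2.2 a (h ha) b hb hab
      · exact (hc hs).2.2 a ha b (h hb) hab
  obtain ⟨A, hA, hmax⟩ := hz
  refine ⟨A, hA.1, hA.2.1, hA.2.2, fun q hq => ?_⟩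
  obtain ⟨r, hr, hrX⟩ := hX q hq
  by_contra hc
  push_neg at hc
  have hinc : ∀ a ∈ A, Inc r a := fun a ha t ht hta => hc t (ht.trans hr) a ha hta
  have hsym : ∀ a ∈ A, Inc a r := fun a ha t ht htr => hinc a ha t htr ht
  have hS : insert r A ∈ S := by
    refine ⟨Set.insert_subset hrX hA.1, ?_, ?_⟩
    · intro a ha
      rcases Set.mem_insert_iff.1 ha with rfl | ha
      · exact hr.trans hq
      · exact hA.2.1 a ha
    · intro a ha b hb hab
      rcases Set.mem_insert_iff.1 ha with ha | ha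
      · rcases Set.mem_insert_iff.1 hb with hb | hb
        · exact (hab (ha.trans hb.symm)).elim
        · rw [ha]
          exact hinc b hb
      · rcases Set.mem_insert_iff.1 hb with hb | hb
        · rw [hb]
          exact hsym a ha
        · exact hA.2.2 a ha b hb hab
  have hr2 : r ∈ A := hmax hS (Set.subset_insert r A) (Set.mem_insert r A)
  exact hinc r hr2 r le_rfl le_rfl

theorem FA_local (h : ∀ w' ≤ w, ∃ v ≤ w', FA v Ψ) : FA w Ψ := by
  have hX : DnsB {v | FA v Ψ} w := h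
  obtain ⟨A, hAX, hAw, hinc, hpre⟩ := exists_antichain _ hX
  have h2 : ∀ v : P, ∃ D : ℕ → Set P, (∀ n, Dns (D n)) ∧ (v ∈ A → ∀ G : Flt P, v ∈ G.car → (∀ n, mt (D n) G) → Ψ G) := by
    intro v
    by_cases hv : v ∈ A
    · obtain ⟨D, hD, h3⟩ := hAX hv
      exact ⟨D, hD, fun _ => h3⟩
    · exact ⟨fun _ => Set.univ, fun _ p => ⟨p, le_rfl, trivial⟩, fun h => (hv h).elim⟩
  choose D hD hΨ using h2
  refine ⟨fun n => {q | (∃ v ∈ A, q ≤ v ∧ ∃ d ∈ D v n, q ≤ d) ∨ Inc q w}, fun n p => ?_, fun G hG hm => ?_⟩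
  · by_cases hp : Inc p w
    · exact ⟨p, le_rfl, Or.inr hp⟩
    · unfold Inc at hp
      push_neg at hp
      obtain ⟨r, hr, hrw⟩ := hp
      obtain ⟨r', hr', v, hv, hrv⟩ := hpre r hrw
      obtain ⟨d, hd, hdD⟩ := hD v n r'
      exact ⟨d, (hd.trans hr').trans hr, Or.inl ⟨v, hv, hd.trans hrv, d, hdD, le_rfl⟩⟩
  · have key : ∀ n, ∃ v ∈ A, v ∈ G.car ∧ mt (D v n) G := by
      intro n
      obtain ⟨q, hq, hqG⟩ := hm n
      rcases hq with ⟨v, hv, hqv, d, hd, hqd⟩ | hq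
      · exact ⟨v, hv, G.up _ hqG _ hqv, d, hd, G.up _ hqG _ hqd⟩
      · exact (Flt.compat hqG hG hq).elim
    obtain ⟨v, hv, hvG, -⟩ := key 0
    refine hΨ v hv G hvG fun n => ?_
    obtain ⟨v', hv', hvG', h4⟩ := key n
    have : v' = v := by
      by_contra hne
      exact Flt.compat hvG' hvG (hinc v' hv' v hv hne)
    rwa [this] at h4

end Pool.Agent.Lib.MP_011f3a_lc.LM

/-! # Decidable events (module A-DEC)

`BPr Ψ`: every condition has an extension which decides `Ψ(G)` (the event has the Baire property). The events with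
this property form a σ-algebra. `BPr.exists`: given `w`; if some `v ≤ w` and `i` have `FA v (Ψ i)`, done; otherwise for all `i` the
conditions `v ≤ w` with `FA v (¬ Ψ i)` are dense below `w`, so `FA w (¬ Ψ i)` by `FA_local`, use `FA.all`. -/

namespace Pool.Agent.Lib.MP_011f3a_lc.LM

variable {P : Type} [Preorder P] {w : P} {Ψ Ψ' : Flt P → Prop}

/-- the event `Ψ` is decided by a dense set of conditions -/
def BPr (Ψ : Flt P → Prop) : Prop := ∀ w, ∃ v ≤ w, FA v Ψ ∨ FA v fun G => ¬ Ψ G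

theorem BPr.const (c : Prop) : BPr fun _ : Flt P => c := by
  intro w
  by_cases h : c
  · exact ⟨w, le_rfl, Or.inl (FA.of_forall fun _ _ => h)⟩
  · exact ⟨w, le_rfl, Or.inr (FA.of_forall fun _ _ => h)⟩

theorem BPr.mt (A : Set P) : BPr (mt A) := by
  intro w
  by_cases h : ∃ v ≤ w, ∃ c ∈ A, v ≤ c
  · obtain ⟨v, hv, c, hc, hvc⟩ := h
    exact ⟨v, hv, Or.inl (FA.of_forall fun G hG => ⟨c, hc, G.up _ hG _ hvc⟩)⟩
  · push_neg at h
    refine ⟨w, le_rfl, Or.inr (FA.of_forall ?_)⟩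
    rintro G hG ⟨c, hc, hcG⟩
    obtain ⟨r, -, h1, h2⟩ := G.dir _ hG _ hcG
    exact h r h1 c hc h2

theorem BPr.congr (h : BPr Ψ) (hi : ∀ G, Ψ G ↔ Ψ' G) : BPr Ψ' := by
  have : Ψ = Ψ' := funext fun G => propext (hi G)
  rwa [← this]

theorem BPr.not (h : BPr Ψ) : BPr fun G => ¬ Ψ G := by
  intro w
  obtain ⟨v, hv, h1 | h1⟩ := h w
  · exact ⟨v, hv, Or.inr (h1.imp fun G _ h2 => not_not.2 h2)⟩
  · exact ⟨v, hv, Or.inl h1⟩

theorem BPr.exists {ι : Type*} [Countable ι] {Ψ : ι → Flt P → Prop} (h : ∀ i, BPr (Ψ i)) :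
    BPr fun G => ∃ i, Ψ i G := by
  intro w
  by_cases hc : ∃ v ≤ w, ∃ i, FA v (Ψ i)
  · obtain ⟨v, hv, i, h1⟩ := hc
    exact ⟨v, hv, Or.inl (h1.imp fun G _ h2 => ⟨i, h2⟩)⟩
  · push_neg at hc
    refine ⟨w, le_rfl, Or.inr ?_⟩
    have h1 : ∀ i, FA w fun G => ¬ Ψ i G := by
      intro i
      refine FA_local fun w' hw' => ?_
      obtain ⟨v, hv, h2 | h2⟩ := h i w'
      · exact (hc v (hv.trans hw') i h2).elim
      · exact ⟨v, hv, h2⟩
    exact (FA.all h1).imp fun G _ h2 h3 => by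
      obtain ⟨i, h4⟩ := h3
      exact h2 i h4

theorem BPr.all {ι : Type*} [Countable ι] {Ψ : ι → Flt P → Prop} (h : ∀ i, BPr (Ψ i)) :
    BPr fun G => ∀ i, Ψ i G :=
  (BPr.exists fun i => (h i).not).not.congr fun G => by simp

theorem BPr.and (h : BPr Ψ) (h' : BPr Ψ') : BPr fun G => Ψ G ∧ Ψ' G := by
  intro w
  obtain ⟨v, hv, h1 | h1⟩ := h w
  · obtain ⟨v', hv', h2 | h2⟩ := h' v
    · exact ⟨v', hv'.trans hv, Or.inl ((h1.mono hv').and h2)⟩
    · exact ⟨v', hv'.trans hv, Or.inr (h2.imp fun G _ h3 h4 => h3 h4.2)⟩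
  · exact ⟨v, hv, Or.inr (h1.imp fun G _ h3 h4 => h3 h4.1)⟩

theorem BPr.or (h : BPr Ψ) (h' : BPr Ψ') : BPr fun G => Ψ G ∨ Ψ' G :=
  (h.not.and h'.not).not.congr fun G => by tauto

theorem BPr.imp (h : BPr Ψ) (h' : BPr Ψ') : BPr fun G => Ψ G → Ψ' G :=
  (h.not.or h').congr fun G => by tauto

/-- an event which is not forced is forced to fail below some condition -/
theorem BPr.of_forall (h : BPr Ψ) (hn : ∀ v ≤ w, ¬ FA v fun G => ¬ Ψ G) : FA w Ψ := by
  refine FA_local fun w' hw' => ?_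
  obtain ⟨v, hv, h1 | h1⟩ := h w'
  · exact ⟨v, hv, h1⟩
  · exact (hn v (hv.trans hw') h1).elim

theorem FA.exists_of_BPr {ι : Type*} [Countable ι] {Ψ : ι → Flt P → Prop} (hb : ∀ i, BPr (Ψ i))
    (h : FA w fun G => ∃ i, Ψ i G) : ∃ v ≤ w, ∃ i, FA v (Ψ i) := by
  by_contra hc
  push_neg at hc
  have h1 : ∀ i, FA w fun G => ¬ Ψ i G := by
    intro i
    refine FA_local fun w' hw' => ?_
    obtain ⟨v, hv, h2 | h2⟩ := hb i w'
    · exact (hc v (hv.trans hw') i h2).elim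
    · exact ⟨v, hv, h2⟩
  exact FA.not_false (h.imp₂ (FA.all h1) fun G _ h2 h3 => by
    obtain ⟨i, h4⟩ := h2
    exact h3 i h4)

theorem FA.or_of_BPr (hb : BPr Ψ) (hb' : BPr Ψ') (h : FA w fun G => Ψ G ∨ Ψ' G) :
    ∃ v ≤ w, FA v Ψ ∨ FA v Ψ' := by
  obtain ⟨v, hv, h1 | h1⟩ := hb w
  · exact ⟨v, hv, Or.inl h1⟩
  · exact ⟨v, hv, Or.inr ((h.mono hv).imp₂ h1 fun G _ h2 h3 => h2.resolve_left h3)⟩

/-- the set of the conditions which force an event is an open set which represents the event -/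
theorem mt_FA_iff (hb : BPr Ψ) (w : P) : FA w fun G => mt {c | FA c Ψ} G ↔ Ψ G := by
  refine FA_local fun w' _ => ?_
  obtain ⟨v, hv, h1 | h1⟩ := hb w'
  · exact ⟨v, hv, h1.imp fun G hG h2 => ⟨fun _ => h2, fun _ => ⟨v, h1, hG⟩⟩⟩
  · refine ⟨v, hv, h1.imp fun G hG h2 => ⟨?_, fun h3 => (h2 h3).elim⟩⟩
    rintro ⟨c, hc, hcG⟩
    obtain ⟨r, -, h3, h4⟩ := G.dir _ hG _ hcG
    exact (FA.not_false ((h1.mono h3).imp₂ (FA.mono hc h4) fun _ _ h5 h6 => h5 h6)).elim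

end Pool.Agent.Lib.MP_011f3a_lc.LM
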