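import Pool.Agent.Lib.MP_011f3a_lc.LM.A.Defs
import Pool.Agent.Lib.MP_011f3a_lc.LM.B.Defs
import Pool.Agent.Lib.MP_011f3a_lc.LM.I.Raw

/-! # Decidable events about names of trees (module A-TREEB)

`T : List ℕ → Set P` is a name of a set of finite sequences and `ev T G` its value. All events are built from
`s ∈ ev T G` by countable quantifiers (`ℕ` and `List ℕ`). For `Suc`: `{v | v < u ∧ …}.ncard = n` only depends on the finitely many
events `a ++ [v] ∈ T`, `v < u`: it is equivalent to `∃ F ∈ (Finset.range u).powerset, F.card = n ∧ ∀ v < u, (v ∈ F ↔ a ++ [v] ∈ T)`. -/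

namespace Pool.Agent.Lib.MP_011f3a_lc.LM

variable {P : Type} [Preorder P] {T T' : Flt P → Set (List ℕ)}

/-- the value of `T` at all arguments is decidable -/
def BT (T : Flt P → Set (List ℕ)) : Prop := ∀ s, BPr fun G => s ∈ T G

private theorem treeb_iff {Φ Ψ : Flt P → Prop} (h : BPr Φ) (h' : BPr Ψ) : BPr fun G => (Φ G ↔ Ψ G) :=
  ((h.imp h').and (h'.imp h)).congr fun _ => ⟨fun h1 => ⟨h1.1, h1.2⟩, fun h1 => ⟨h1.1, h1.2⟩⟩

theorem bt_ev (T : List ℕ → Set P) : BT (ev T) := fun s => BPr.mt (T s)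

theorem bt_abv (h : BT T) (s : List ℕ) : BT fun G => abv (T G) s := fun t => (h t).and (BPr.const _)

theorem bt_subset (h : BT T) (h' : BT T') : BPr fun G => T G ⊆ T' G := BPr.all fun s => (h s).imp (h' s)

theorem bt_isTree (h : BT T) : BPr fun G => IsTree (T G) := BPr.all fun s => BPr.all fun n => (h (s ++ [n])).imp (h s)

theorem bt_split (h : BT T) (s : List ℕ) : BPr fun G => Split (T G) s :=
  (h s).and (BPr.all fun m => BPr.exists fun n => (BPr.const (n ≥ m)).and (h (s ++ [n])))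

theorem bt_st (h : BT T) (a : List ℕ) : BPr fun G => St (T G) a :=
  (bt_split h a).and (BPr.all fun s => (h s).imp (BPr.const _))

theorem bt_suc (h : BT T) (a : List ℕ) (n u : ℕ) : BPr fun G => Suc (T G) a n u := by
  refine (h (a ++ [u])).and ?_
  refine BPr.congr (Ψ := fun G => ∃ F : Finset ℕ, F.card = n ∧ ∀ v, (v ∈ F ↔ v < u ∧ a ++ [v] ∈ T G)) ?_ fun G => ?_
  · exact BPr.exists fun F => (BPr.const _).and (BPr.all fun v => treeb_iff (BPr.const _) ((BPr.const _).and (h (a ++ [v]))))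
  · constructor
    · rintro ⟨F, hF, h1⟩
      have h2 : {v : ℕ | v < u ∧ a ++ [v] ∈ T G} = (F : Set ℕ) := by
        ext v
        exact (h1 v).symm
      rw [h2, Set.ncard_coe_finset, hF]
    · intro h1
      have hfin : {v : ℕ | v < u ∧ a ++ [v] ∈ T G}.Finite := (Set.finite_Iio u).subset fun v hv => hv.1
      refine ⟨hfin.toFinset, ?_, fun v => ?_⟩
      · rw [← h1, Set.ncard_eq_toFinset_card _ hfin]
      · rw [Set.Finite.mem_toFinset]
        exact Iff.rfl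

theorem bt_kp (h : BT T) (r a : List ℕ) : BPr fun G => Kp (T G) r a := by
  induction r generalizing a with
  | nil => exact bt_st h a
  | cons n r ih =>
    exact BPr.exists fun b => BPr.exists fun u => (ih b).and ((bt_suc h b n u).and (bt_st (bt_abv h (b ++ [u])) a))

end Pool.Agent.Lib.MP_011f3a_lc.LM

/-! # The forced statements as statements about filters (module A-FORCED)

`FTreeT`, `FSplitT`, `FLaverT`, `FMillerT`, `FSubT` are the definitions of `I/Stmt0.lean` for a preordered type. They are equivalent to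
`FA w (…)`. From left to right: for `FSubT`: `FA.all` over `s`; for one `s`: the set of all `q` with `Frc (T' s) q` or
`q ≤ w ∧ ∀ r ≤ q, ¬ Frc (T s) r`, or `Inc q w`, is dense. From right to left: `frc_of_FA`. Existential statements: `FA.exists_of_BPr`,
`bt_*`, `FA_local`. -/

namespace Pool.Agent.Lib.MP_011f3a_lc.LM

variable {P : Type} [Preorder P] {w : P} {T T' : List ℕ → Set P}

def FSubT (T T' : List ℕ → Set P) (w : P) : Prop := ∀ s, ∀ w' ≤ w, Frc (T s) w' → Frc (T' s) w'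

def FTreeT (T : List ℕ → Set P) (w : P) : Prop := ∀ s n, ∀ w' ≤ w, Frc (T (s ++ [n])) w' → Frc (T s) w'

def FSplitT (T : List ℕ → Set P) (s : List ℕ) (w : P) : Prop :=
  Frc (T s) w ∧ ∀ m, ∀ w' ≤ w, ∃ v ≤ w', ∃ n ≥ m, Frc (T (s ++ [n])) v

def FLaverT (T : List ℕ → Set P) (w : P) : Prop :=
  FTreeT T w ∧ ∀ w' ≤ w, ∃ v ≤ w', ∃ s₀, Frc (T s₀) v ∧
    ∀ s, ∀ u ≤ v, Frc (T s) u → (s <+: s₀ ∨ s₀ <+: s) ∧ (s₀ <+: s → FSplitT T s u)

def FMillerT (T : List ℕ → Set P) (w : P) : Prop :=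
  FTreeT T w ∧ Frc (T []) w ∧ ∀ s, ∀ w' ≤ w, Frc (T s) w' → ∃ v ≤ w', ∃ t, s <+: t ∧ FSplitT T t v

private theorem forced_imp {Φ Ψ : Flt P → Prop} (hb : BPr Φ) :
    (∀ w' ≤ w, FA w' Φ → FA w' Ψ) ↔ FA w fun G => Φ G → Ψ G := by
  constructor
  · intro h
    refine FA_local fun w' hw' => ?_
    obtain ⟨v, hv, h1 | h1⟩ := hb w'
    · exact ⟨v, hv, (h v (hv.trans hw') h1).imp fun G _ h2 _ => h2⟩
    · exact ⟨v, hv, h1.imp fun G _ h2 h3 => (h2 h3).elim⟩
  · intro h w' hw' h1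
    exact (h.mono hw').imp₂ h1 fun G _ h2 h3 => h2 h3

private theorem forced_ex {ι : Type*} [Countable ι] {Ψ : ι → Flt P → Prop} (hb : ∀ i, BPr (Ψ i)) :
    (∀ w' ≤ w, ∃ v ≤ w', ∃ i, FA v (Ψ i)) ↔ FA w fun G => ∃ i, Ψ i G := by
  constructor
  · intro h
    refine FA_local fun w' hw' => ?_
    obtain ⟨v, hv, i, h1⟩ := h w' hw'
    exact ⟨v, hv, h1.imp fun G _ h2 => ⟨i, h2⟩⟩
  · intro h w' hw'
    exact (h.mono hw').exists_of_BPr hb

private theorem forced_const {c : Prop} : (FA w fun _ => c) ↔ c := by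
  constructor
  · intro h
    obtain ⟨G, -, h1⟩ := h.exists
    exact h1
  · intro h
    exact FA.of_forall fun _ _ => h

private theorem forced_and {Φ Ψ : Flt P → Prop} : FA w Φ ∧ FA w Ψ ↔ FA w fun G => Φ G ∧ Ψ G :=
  ⟨fun h => h.1.and h.2, fun h => ⟨h.imp fun _ _ h1 => h1.1, h.imp fun _ _ h1 => h1.2⟩⟩

private theorem forced_all {ι : Type*} [Countable ι] {Ψ : ι → Flt P → Prop} :
    (∀ i, FA w (Ψ i)) ↔ FA w fun G => ∀ i, Ψ i G :=
  ⟨FA.all, fun h i => h.imp fun _ _ h1 => h1 i⟩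

theorem fsub_iff : FSubT T T' w ↔ FA w fun G => ev T G ⊆ ev T' G := by
  refine Iff.trans (b := ∀ s, FA w fun G => mt (T s) G → mt (T' s) G) ?_ forced_all
  refine forall_congr' fun s => ?_
  rw [← forced_imp (BPr.mt _)]
  simp only [frc_iff]

theorem ftree_iff : FTreeT T w ↔ FA w fun G => IsTree (ev T G) := by
  refine Iff.trans (b := ∀ s, FA w fun G => ∀ n, mt (T (s ++ [n])) G → mt (T s) G) ?_ forced_all
  refine forall_congr' fun s => ?_
  rw [← forced_all]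
  refine forall_congr' fun n => ?_
  rw [← forced_imp (BPr.mt _)]
  simp only [frc_iff]

theorem fsplit_iff {s : List ℕ} : FSplitT T s w ↔ FA w fun G => Split (ev T G) s := by
  refine Iff.trans (b := (FA w fun G => mt (T s) G) ∧ FA w fun G => ∀ m, ∃ n, n ≥ m ∧ mt (T (s ++ [n])) G) ?_ forced_and
  refine and_congr frc_iff ?_
  rw [← forced_all]
  refine forall_congr' fun m => ?_
  rw [← forced_ex (fun n => (BPr.const (n ≥ m)).and (BPr.mt _))]
  refine forall_congr' fun w' => forall_congr' fun _ => exists_congr fun v => and_congr_right fun _ => exists_congr fun n => ?_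
  rw [← forced_and, forced_const, frc_iff]

theorem flaver_iff : FLaverT T w ↔ FA w fun G => Laver (ev T G) := by
  refine Iff.trans (b := (FA w fun G => IsTree (ev T G)) ∧ FA w fun G => ∃ s₀, mt (T s₀) G ∧ ∀ s, mt (T s) G →
      (s <+: s₀ ∨ s₀ <+: s) ∧ (s₀ <+: s → Split (ev T G) s)) ?_ forced_and
  refine and_congr ftree_iff ?_
  have hb : ∀ s₀ : List ℕ, BPr fun G : Flt P => ∀ s, mt (T s) G → (s <+: s₀ ∨ s₀ <+: s) ∧ (s₀ <+: s → Split (ev T G) s) :=
    fun s₀ => BPr.all fun s => (BPr.mt _).imp ((BPr.const _).and ((BPr.const _).imp (bt_split (bt_ev T) s)))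
  rw [← forced_ex (fun s₀ => (BPr.mt _).and (hb s₀))]
  refine forall_congr' fun w' => forall_congr' fun _ => exists_congr fun v => and_congr_right fun _ => exists_congr fun s₀ => ?_
  rw [← forced_and, ← forced_all, frc_iff]
  refine and_congr_right fun _ => forall_congr' fun s => ?_
  rw [← forced_imp (BPr.mt _)]
  refine forall_congr' fun u => forall_congr' fun _ => ?_
  rw [← forced_and, forced_const, ← frc_iff, ← forced_imp (BPr.const _)]
  refine imp_congr_right fun _ => and_congr_right fun _ => ?_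
  constructor
  · intro h x hx h1
    exact (fsplit_iff.1 (h (forced_const.1 h1))).mono hx
  · intro h h1
    exact fsplit_iff.2 (h u le_rfl (forced_const.2 h1))

theorem fmiller_iff : FMillerT T w ↔ FA w fun G => Miller (ev T G) := by
  refine Iff.trans (b := (FA w fun G => IsTree (ev T G)) ∧ FA w fun G => mt (T []) G ∧ ∀ s, mt (T s) G →
      ∃ t, s <+: t ∧ Split (ev T G) t) ?_ forced_and
  refine and_congr ftree_iff ?_
  rw [← forced_and]
  refine and_congr frc_iff ?_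
  rw [← forced_all]
  refine forall_congr' fun s => ?_
  rw [← forced_imp (BPr.mt _)]
  have hb : ∀ t : List ℕ, BPr fun G : Flt P => s <+: t ∧ Split (ev T G) t :=
    fun t => (BPr.const _).and (bt_split (bt_ev T) t)
  constructor
  · intro h w' hw' h1
    rw [← forced_ex hb]
    intro w'' hw''
    obtain ⟨v, hv, t, ht, h2⟩ := h w'' (hw''.trans hw') ((frc_iff.2 h1).mono hw'')
    exact ⟨v, hv, t, forced_and.1 ⟨forced_const.2 ht, fsplit_iff.1 h2⟩⟩
  · intro h w' hw' h1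
    have h2 := h w' hw' (frc_iff.1 h1)
    rw [← forced_ex hb] at h2
    obtain ⟨v, hv, t, h3⟩ := h2 w' le_rfl
    rw [← forced_and, forced_const] at h3
    exact ⟨v, hv, t, h3.1, fsplit_iff.2 h3.2⟩

end Pool.Agent.Lib.MP_011f3a_lc.LM

/-! # The definitions of I/Stmt0.lean and filters on the type of conditions (module I-BRG)

`Cn Ω md ξ` is the type of the conditions of `P_ξ`. For a set `A` of conditions (`A ⊆ (CSI md.F ξ).mem`) `sb A : Set (Cn Ω md ξ)` is the same set. The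
statements `PO.Frc`, … are `Frc`, … of A/Defs.lean and A/Forced.lean (unfold both sides); then use `flaver_iff`, `fmiller_iff`, `fsub_iff`. -/

namespace Pool.Agent.Lib.MP_011f3a_lc.LM

variable {Ω : Type} [LinearOrder Ω] [WellFoundedLT Ω] {md : Md} {ξ : Ω}

/-- the same set as a set of elements of the type of conditions -/
def sb (A : Set (Raw Ω ξ)) : Set (Cn Ω md ξ) := {c | c.1 ∈ A}

theorem brg_frc {A : Set (Raw Ω ξ)} (hA : A ⊆ (CSI md.F ξ).mem) (w : Cn Ω md ξ) :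
    (CSI md.F ξ).Frc A w.1 ↔ Frc (sb A) w := by
  constructor
  · intro h w' hw'
    obtain ⟨v, hv, hvw, c, hc, hvc⟩ := h w'.1 w'.2 hw'
    exact ⟨⟨v, hv⟩, hvw, ⟨c, hA hc⟩, hc, hvc⟩
  · intro h w' hw' hle
    obtain ⟨v, hv, c, hc, hvc⟩ := h ⟨w', hw'⟩ hle
    exact ⟨v.1, v.2, hv, c.1, hc, hvc⟩

private theorem brg_sub' {T T' : List ℕ → Set (Raw Ω ξ)} (hT : ∀ s, T s ⊆ (CSI md.F ξ).mem)
    (hT' : ∀ s, T' s ⊆ (CSI md.F ξ).mem) (w : Cn Ω md ξ) :
    (CSI md.F ξ).FSub T T' w.1 ↔ FSubT (fun s => sb (T s)) (fun s => sb (T' s)) w := by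
  constructor
  · intro h s w' hw' h1
    exact (brg_frc (hT' s) w').1 (h s w'.1 w'.2 hw' ((brg_frc (hT s) w').2 h1))
  · intro h s w' hw' hle h1
    exact (brg_frc (hT' s) ⟨w', hw'⟩).2 (h s ⟨w', hw'⟩ hle ((brg_frc (hT s) ⟨w', hw'⟩).1 h1))

theorem brg_sub {T T' : List ℕ → Set (Raw Ω ξ)} (hT : ∀ s, T s ⊆ (CSI md.F ξ).mem)
    (hT' : ∀ s, T' s ⊆ (CSI md.F ξ).mem) (w : Cn Ω md ξ) :
    (CSI md.F ξ).FSub T T' w.1 ↔ FA w fun G => ev (fun s => sb (T s)) G ⊆ ev (fun s => sb (T' s)) G := by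
  rw [brg_sub' hT hT', fsub_iff]

private theorem brg_tree {T : List ℕ → Set (Raw Ω ξ)} (hT : ∀ s, T s ⊆ (CSI md.F ξ).mem) (w : Cn Ω md ξ) :
    (CSI md.F ξ).FTree T w.1 ↔ FTreeT (fun s => sb (T s)) w := by
  constructor
  · intro h s n w' hw' h1
    exact (brg_frc (hT s) w').1 (h s n w'.1 w'.2 hw' ((brg_frc (hT (s ++ [n])) w').2 h1))
  · intro h s n w' hw' hle h1
    exact (brg_frc (hT s) ⟨w', hw'⟩).2 (h s n ⟨w', hw'⟩ hle ((brg_frc (hT (s ++ [n])) ⟨w', hw'⟩).1 h1))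

private theorem brg_split {T : List ℕ → Set (Raw Ω ξ)} (hT : ∀ s, T s ⊆ (CSI md.F ξ).mem) (s : List ℕ) (w : Cn Ω md ξ) :
    (CSI md.F ξ).FSplit T s w.1 ↔ FSplitT (fun s => sb (T s)) s w := by
  refine and_congr (brg_frc (hT s) w) ?_
  constructor
  · intro h m w' hw'
    obtain ⟨v, hv, hvw, n, hn, h1⟩ := h m w'.1 w'.2 hw'
    exact ⟨⟨v, hv⟩, hvw, n, hn, (brg_frc (hT _) ⟨v, hv⟩).1 h1⟩
  · intro h m w' hw' hle
    obtain ⟨v, hv, n, hn, h1⟩ := h m ⟨w', hw'⟩ hle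
    exact ⟨v.1, v.2, hv, n, hn, (brg_frc (hT _) v).2 h1⟩

private theorem brg_laver {T : List ℕ → Set (Raw Ω ξ)} (hT : ∀ s, T s ⊆ (CSI md.F ξ).mem) (w : Cn Ω md ξ) :
    (CSI md.F ξ).FLaver T w.1 ↔ FLaverT (fun s => sb (T s)) w := by
  refine and_congr (brg_tree hT w) ?_
  constructor
  · intro h w' hw'
    obtain ⟨v, hv, hvw, s₀, h0, h1⟩ := h w'.1 w'.2 hw'
    refine ⟨⟨v, hv⟩, hvw, s₀, (brg_frc (hT _) ⟨v, hv⟩).1 h0, fun s u hu h2 => ?_⟩
    obtain ⟨h3, h4⟩ := h1 s u.1 u.2 hu ((brg_frc (hT _) u).2 h2)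
    exact ⟨h3, fun h5 => (brg_split hT s u).1 (h4 h5)⟩
  · intro h w' hw' hle
    obtain ⟨v, hv, s₀, h0, h1⟩ := h ⟨w', hw'⟩ hle
    refine ⟨v.1, v.2, hv, s₀, (brg_frc (hT _) v).2 h0, fun s u hu hle' h2 => ?_⟩
    obtain ⟨h3, h4⟩ := h1 s ⟨u, hu⟩ hle' ((brg_frc (hT _) ⟨u, hu⟩).1 h2)
    exact ⟨h3, fun h5 => (brg_split hT s ⟨u, hu⟩).2 (h4 h5)⟩

private theorem brg_miller {T : List ℕ → Set (Raw Ω ξ)} (hT : ∀ s, T s ⊆ (CSI md.F ξ).mem) (w : Cn Ω md ξ) :
    (CSI md.F ξ).FMiller T w.1 ↔ FMillerT (fun s => sb (T s)) w := by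
  refine and_congr (brg_tree hT w) (and_congr (brg_frc (hT _) w) ?_)
  constructor
  · intro h s w' hw' h1
    obtain ⟨v, hv, hvw, t, ht, h2⟩ := h s w'.1 w'.2 hw' ((brg_frc (hT _) w').2 h1)
    exact ⟨⟨v, hv⟩, hvw, t, ht, (brg_split hT t ⟨v, hv⟩).1 h2⟩
  · intro h s w' hw' hle h1
    obtain ⟨v, hv, t, ht, h2⟩ := h s ⟨w', hw'⟩ hle ((brg_frc (hT _) ⟨w', hw'⟩).1 h1)
    exact ⟨v.1, v.2, hv, t, ht, (brg_split hT t v).2 h2⟩

theorem brg_good {T : List ℕ → Set (Raw Ω ξ)} (hT : ∀ s, T s ⊆ (CSI md.F ξ).mem) (w : Cn Ω md ξ) :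
    md.F _ (CSI md.F ξ) T w.1 ↔ FA w fun G => TC md (ev (fun s => sb (T s)) G) := by
  cases md with
  | laver => exact (brg_laver hT w).trans flaver_iff
  | miller => exact (brg_miller hT w).trans fmiller_iff

theorem sb_mem : sb (CSI md.F ξ).mem = (Set.univ : Set (Cn Ω md ξ)) := by
  ext c
  exact ⟨fun _ => trivial, fun _ => c.2⟩

/-- the full tree is forced to be good -/
theorem full_good (w : Raw Ω ξ) (hw : w ∈ (CSI md.F ξ).mem) : md.F _ (CSI md.F ξ) (fun _ => (CSI md.F ξ).mem) w := by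
  refine (brg_good (md := md) (fun _ => subset_rfl) ⟨w, hw⟩).2 (FA.of_forall fun G hG => ?_)
  have h1 : ev (fun _ : List ℕ => sb (CSI md.F ξ).mem) G = Set.univ := by
    ext s
    exact ⟨fun _ => trivial, fun _ => ⟨⟨w, hw⟩, hw, hG⟩⟩
  rw [h1]
  cases md with
  | laver =>
    exact ⟨fun _ _ _ => trivial, [], trivial, fun s _ => ⟨Or.inr List.nil_prefix, fun _ => ⟨trivial, fun m => ⟨m, le_rfl, trivial⟩⟩⟩⟩
  | miller =>
    exact ⟨fun _ _ _ => trivial, trivial, fun s _ => ⟨s, List.prefix_rfl, trivial, fun m => ⟨m, le_rfl, trivial⟩⟩⟩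

end Pool.Agent.Lib.MP_011f3a_lc.LM

/-! # Coordinates, restriction and extension of conditions (module I-CO)

`p.co ξ` is the `P_ξ`-name `p(ξ)` as a function into the sets of elements of `Cn Ω md ξ` (the full name if `ξ ≥ ζ`). `tr ξ p` is the condition of
`P_ξ` with the same values (restriction to `ξ` if `ξ ≤ ζ`, extension by full names if `ξ ≥ ζ`). Everything follows from `mem_csi`, `le_csi`, `Raw.at_mk`, `Raw.ext`
(I/Raw.lean) and I/Brg.lean. For `tr_mem` use induction on `ξ`: the restriction of the new sequence to `η < ζ` is `p.1.res η`, and the restriction to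
`η` in general is the sequence for `η`. -/

namespace Pool.Agent.Lib.MP_011f3a_lc.LM

variable {Ω : Type} [LinearOrder Ω] [WellFoundedLT Ω] {md : Md} {ζ ξ η : Ω}

/-- the name `p(ξ)` -/
def Cn.co (p : Cn Ω md ζ) (ξ : Ω) : List ℕ → Set (Cn Ω md ξ) := fun s => {c | ∀ h : ξ < ζ, c.1 ∈ p.1.at ξ h s}

open Classical in
theorem tr_mem (p : Cn Ω md ζ) (ξ : Ω) : Raw.mk (fun η (_ : η < ξ) => if h : η < ζ then p.1.at η h else
    fun _ => (CSI md.F η).mem) ∈ (CSI md.F ξ).mem := by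
  obtain ⟨hc, hm⟩ := mem_csi.1 p.2
  induction ξ using WellFoundedLT.induction with
  | ind ξ ih =>
    rw [mem_csi]
    refine ⟨hc.mono ?_, fun η hη => ?_⟩
    · rintro η ⟨hη, h1⟩
      rw [Raw.at_mk] at h1
      by_cases h : η < ζ
      · rw [dif_pos h] at h1
        exact ⟨h, h1⟩
      · rw [dif_neg h] at h1
        exact (h1 rfl).elim
    · have hres : (Raw.mk (fun η (_ : η < ξ) => if h : η < ζ then p.1.at η h else
          fun _ => (CSI md.F η).mem)).res η hη.le = Raw.mk (fun θ (_ : θ < η) => if h : θ < ζ then p.1.at θ h else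
          fun _ => (CSI md.F θ).mem) := by
        refine Raw.ext fun θ hθ => ?_
        rw [Raw.at_res, Raw.at_mk, Raw.at_mk]
      rw [Raw.at_mk, hres]
      by_cases h : η < ζ
      · rw [dif_pos h]
        have h2 : Raw.mk (fun θ (_ : θ < η) => if h : θ < ζ then p.1.at θ h else
          fun _ => (CSI md.F θ).mem) = p.1.res η h.le := by
          refine Raw.ext fun θ hθ => ?_
          rw [Raw.at_res, Raw.at_mk, dif_pos (hθ.trans h)]
        rw [h2]
        exact hm η h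
      · rw [dif_neg h]
        exact ⟨fun _ => subset_rfl, full_good _ (ih η hη)⟩

open Classical in
/-- restriction or extension of a condition -/
noncomputable def tr (ξ : Ω) (p : Cn Ω md ζ) : Cn Ω md ξ :=
  ⟨Raw.mk fun η (_ : η < ξ) => if h : η < ζ then p.1.at η h else fun _ => (CSI md.F η).mem, tr_mem p ξ⟩

/-- the support -/
def Cn.supp (p : Cn Ω md ζ) : Set Ω := {ξ | p.co ξ ≠ full _ _}

theorem Cn.co_of_le (p : Cn Ω md ζ) (h : ζ ≤ ξ) : p.co ξ = full _ _ := by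
  funext s
  exact Set.eq_univ_of_forall fun c h1 => (h1.not_ge h).elim

theorem Cn.ext {p q : Cn Ω md ζ} (h : ∀ ξ < ζ, p.co ξ = q.co ξ) : p = q := by
  refine Subtype.ext (Raw.ext fun ξ hξ => ?_)
  funext s
  have h1 := congrFun (h ξ hξ) s
  ext c
  constructor
  · intro hc
    have h2 : (⟨c, ((mem_csi.1 p.2).2 ξ hξ).1 s hc⟩ : Cn Ω md ξ) ∈ p.co ξ s := fun _ => hc
    rw [h1] at h2
    exact h2 hξ
  · intro hc
    have h2 : (⟨c, ((mem_csi.1 q.2).2 ξ hξ).1 s hc⟩ : Cn Ω md ξ) ∈ q.co ξ s := fun _ => hc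
    rw [← h1] at h2
    exact h2 hξ

theorem co_tr (p : Cn Ω md ζ) (h : η < ξ) : (tr ξ p).co η = p.co η := by
  funext s
  ext c
  by_cases hη : η < ζ
  · constructor
    · intro h1 h2
      have h3 := h1 h
      rw [tr, Raw.at_mk, dif_pos hη] at h3
      exact h3
    · intro h1 h2
      rw [tr, Raw.at_mk, dif_pos hη]
      exact h1 hη
  · constructor
    · intro h1 h2
      exact (hη h2).elim
    · intro h1 h2
      rw [tr, Raw.at_mk, dif_neg hη]
      exact c.2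

theorem tr_self (p : Cn Ω md ζ) : tr ζ p = p := Cn.ext fun _ h => co_tr p h

theorem tr_tr (p : Cn Ω md ζ) (h : ξ ≤ η) : tr ξ (tr η p) = tr ξ p :=
  Cn.ext fun θ hθ => by rw [co_tr _ hθ, co_tr _ (hθ.trans_le h), co_tr _ hθ]

theorem tr_tr' (p : Cn Ω md ζ) (h : ζ ≤ η) : tr ξ (tr η p) = tr ξ p :=
  Cn.ext fun θ hθ => by
    rw [co_tr _ hθ, co_tr _ hθ]
    rcases lt_or_ge θ η with h1 | h1
    · rw [co_tr _ h1]
    · rw [Cn.co_of_le _ h1, Cn.co_of_le _ (h.trans h1)]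

end Pool.Agent.Lib.MP_011f3a_lc.LM
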