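import Pool.Agent.Lib.MP_011f3a_lc.LM.A.TreeB

/-! # More decidable events about names of trees (module A-TREEC0)

See the header of A/TreeB.lean. `bt_tle`: the definition of `TLe` involves `Nm`, `wt r < m` (a fixed proposition) and `Kp`. -/

namespace Pool.Agent.Lib.MP_011f3a_lc.LM

variable {P : Type} [Preorder P] {T T' : Flt P → Set (List ℕ)}

theorem bt_tc (h : BT T) (md : Md) : BPr fun G => TC md (T G) := by
  cases md with
  | laver =>
    refine (bt_isTree h).and (BPr.exists fun s₀ => (h s₀).and (BPr.all fun s => (h s).imp ((BPr.const _).and ?_)))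
    exact (BPr.const _).imp (bt_split h s)
  | miller =>
    exact (bt_isTree h).and ((h []).and (BPr.all fun s => (h s).imp (BPr.exists fun t => (BPr.const _).and (bt_split h t))))

private theorem treec0_nm (h : BT T) : BPr fun G => Nm (T G) :=
  BPr.all fun s => (h s).imp ((bt_split h s).or (BPr.all fun n => BPr.all fun n' => (h _).imp ((h _).imp (BPr.const _))))

theorem bt_tle (h : BT T) (h' : BT T') (m : ℕ) : BPr fun G => TLe m (T' G) (T G) :=
  (bt_subset h' h).and (BPr.all fun r => (BPr.const _).imp ((treec0_nm h).imp ((treec0_nm h').and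
    (BPr.all fun a => (bt_kp h r a).imp (bt_kp h' r a)))))

theorem bt_rg (h : BT T) (m : ℕ) (r : List ℕ) : BT fun G => Rg (T G) m r :=
  fun s => (h s).and (BPr.exists fun a => (bt_kp h r a).and ((BPr.const _).and (BPr.all fun n => (BPr.const _).imp
    (BPr.all fun u => (bt_suc h a n u).imp (BPr.const _)))))

theorem bt_inter {T : ℕ → Flt P → Set (List ℕ)} (h : ∀ n, BT (T n)) : BT fun G => ⋂ n, T n G :=
  fun s => (BPr.all fun n => h n s).congr fun G => (Set.mem_iInter (s := fun n => T n G)).symm

theorem bt_union {ι : Type*} [Countable ι] {T : ι → Flt P → Set (List ℕ)} (h : ∀ n, BT (T n)) :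
    BT fun G => ⋃ n, T n G :=
  fun s => (BPr.exists fun n => h n s).congr fun G => (Set.mem_iUnion (s := fun n => T n G)).symm

/-- every decidable set-valued function is the value of its canonical name (`mt_FA_iff`) -/
theorem ev_mkn {ι : Type*} [Countable ι] {T : Flt P → Set ι} (h : ∀ s, BPr fun G => s ∈ T G) (w : P) :
    FA w fun G => ev (mkn T) G = T G :=
  (FA.all fun s => mt_FA_iff (h s) w).imp fun _ _ h1 => Set.ext h1

theorem bt_ev_mkn {T : Flt P → Set (List ℕ)} (h : BT T) (w : P) : FA w fun G => ev (mkn T) G = T G := ev_mkn h w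

theorem mkn_univ {ι : Type*} {T : Flt P → Set ι} (h : ∀ G, T G = Set.univ) : mkn T = full P ι := by
  funext s
  refine Set.eq_univ_of_forall fun c => FA.of_forall fun G _ => ?_
  rw [h]
  trivial

theorem ev_full {ι : Type*} (G : Flt P) : ev (full P ι) G = Set.univ := by
  obtain ⟨c, hc⟩ := G.ne
  exact Set.eq_univ_of_forall fun i => ⟨c, trivial, hc⟩

end Pool.Agent.Lib.MP_011f3a_lc.LM
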